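import Pool.Agent.TH691.US.Split

namespace Pool.Agent.TH691.US

open Equiv Pool.Agent.W6.PS

/-- the reverse complement -/
def rc {n : ℕ} (π : Perm (Fin n)) : Perm (Fin n) := (Fin.revPerm.trans π).trans Fin.revPerm

theorem rc_apply {n : ℕ} (π : Perm (Fin n)) (i : Fin n) : rc π i = (π i.rev).rev := by
  simp [rc]

namespace Dat

variable {n : ℕ} {π : Perm (Fin n)}

section

variable {ι A B : Type*} [LinearOrder A] [LinearOrder B] {X' : ι → A} {Y' : ι → B} (K : Dat π)
  {g : K.I → ι}

theorem left_low (gX : ∀ i j, K.X i < K.X j → X' (g i) < X' (g j))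
    (gY : ∀ i j, K.Y i < K.Y j → Y' (g i) < Y' (g j)) (hY' : Function.Injective Y') {y : ι}
    (h1 : X' (g K.P) < X' y) (h2 : X' y < X' (g K.x)) (h3 : Y' y < Y' (g K.x)) :
    ∃ f, Occ π X' Y' f := by
  have hxR : X' (g K.x) < X' (g K.R) := gX _ _ (by rw [K.X_x, K.X_R]; omega)
  rcases lt_trichotomy (Y' y) (Y' (g K.d)) with h | h | h
  · exact K.low gX gY h1 (h2.trans hxR) h
  · exfalso
    have hy : y = g K.d := hY' h
    rw [hy] at h1 h2
    rcases K.dab with h' | h'
    · have := gX K.x K.d (by rw [K.X_x, K.X_d]; omega)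
      exact lt_asymm h2 this
    · have := gX K.d K.P (by rw [K.X_P, K.X_d]; omega)
      exact lt_asymm h1 this
  · exact K.pair gX gY (y := y) (y' := g K.x) h1 h2 (Or.inr rfl) (Or.inl h) h3 (Or.inr rfl)

end

/-- the splitting theorem -/
theorem not_unsplittable (K : Dat π) (K' : Dat (rc π)) : ¬ Unsplittable (Av π) := by
  classical
  intro hU
  obtain ⟨σ2, e2, he2X, he2Y⟩ := standardize K.X K.Y K.X_injective K.Y_injective
  obtain ⟨σ1, e1, he1X, he1Y⟩ := standardize (fun i => OrderDual.toDual (K'.X i))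
    (fun i => OrderDual.toDual (K'.Y i))
    (fun i j h => K'.X_injective h) (fun i j h => K'.Y_injective h)
  have hσ2 : (⟨_, σ2⟩ : Σ m : ℕ, Perm (Fin m)) ∈ Av π := by
    rintro ⟨f, hf1, hf2⟩
    refine K.avoid (f := fun i => e2 (f i)) ⟨fun i j hij => ?_, fun i j hij => ?_⟩
    · exact (he2X _ _).1 (hf1 i j hij)
    · exact (he2Y _ _).1 ((hf2 i j).1 hij)
  have hσ1 : (⟨_, σ1⟩ : Σ m : ℕ, Perm (Fin m)) ∈ Av π := by
    rintro ⟨f, hf1, hf2⟩
    refine K'.avoid (f := fun i => e1 (f i.rev)) ⟨fun i j hij => ?_, fun i j hij => ?_⟩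
    · have := (he1X _ _).1 (hf1 j.rev i.rev (Fin.rev_lt_rev.2 hij))
      exact OrderDual.toDual_lt_toDual.1 this
    · rw [rc_apply, rc_apply, Fin.rev_lt_rev] at hij
      have := (he1Y _ _).1 ((hf2 j.rev i.rev).1 hij)
      exact OrderDual.toDual_lt_toDual.1 this
  obtain ⟨⟨m, τ⟩, hτ, hc⟩ := hU _ hσ1 _ hσ2
  have hτ' : ∀ f : Fin n → Fin m, (∀ i j, i < j → f i < f j) → (∀ i j, π i < π j →
      τ (f i) < τ (f j)) → False := by
    intro f h1 h2
    apply hτ
    refine ⟨f, h1, fun i j => ⟨h2 i j, fun h => ?_⟩⟩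
    rcases lt_trichotomy (π i) (π j) with h3 | h3 | h3
    · exact h3
    · rw [π.injective h3] at h
      exact absurd h (lt_irrefl _)
    · exact absurd (h2 j i h3) (not_lt.2 h.le)
  -- the marked positions
  set c : Fin m → Bool := fun y => !decide (∃ f, IsCopy σ1 τ f ∧ f (e1.symm K'.x) = y) with hcdef
  rcases hc c with ⟨f, hf, hfc⟩ | ⟨f, hf, hfc⟩
  · have h1 := hfc (e1.symm K'.x)
    rw [hcdef] at h1
    simp only [Bool.not_eq_true', decide_eq_false_iff_not] at h1
    exact h1 ⟨f, hf, rfl⟩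
  · have h1 := hfc (e2.symm K.x)
    rw [hcdef] at h1
    simp only [Bool.not_eq_false', decide_eq_true_eq] at h1
    obtain ⟨f1, hf1, hf1x⟩ := h1
    -- the two embeddings
    set g2 : K.I → Fin m := fun i => f (e2.symm i) with hg2
    set g1 : K'.I → Fin m := fun i => f1 (e1.symm i) with hg1
    have g2X : ∀ i j, K.X i < K.X j → g2 i < g2 j := by
      intro i j hij
      apply hf.1
      rw [he2X]
      simpa using hij
    have g2Y : ∀ i j, K.Y i < K.Y j → τ (g2 i) < τ (g2 j) := by
      intro i j hij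
      apply (hf.2 _ _).1
      rw [he2Y]
      simpa using hij
    have g1X : ∀ i j, K'.X i < K'.X j → g1 j < g1 i := by
      intro i j hij
      apply hf1.1
      rw [he1X]
      simpa using hij
    have g1Y : ∀ i j, K'.Y i < K'.Y j → τ (g1 j) < τ (g1 i) := by
      intro i j hij
      apply (hf1.2 _ _).1
      rw [he1Y]
      simpa using hij
    have hx : g1 K'.x = g2 K.x := hf1x
    -- an occurrence found with the first configuration
    have occ1 : (∃ f', Occ (rc π) (fun i : Fin m => OrderDual.toDual i)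
        (fun i : Fin m => OrderDual.toDual (τ i)) f') → False := by
      rintro ⟨f', hf'⟩
      refine hτ' (fun i => f' i.rev) (fun i j hij => ?_) (fun i j hij => ?_)
      · exact OrderDual.toDual_lt_toDual.1 (hf'.1 j.rev i.rev (Fin.rev_lt_rev.2 hij))
      · refine OrderDual.toDual_lt_toDual.1 (hf'.2 j.rev i.rev ?_)
        rw [rc_apply, rc_apply, Fin.rev_rev, Fin.rev_rev]
        exact Fin.rev_lt_rev.2 hij
    have occ2 : (∃ f', Occ π (id : Fin m → Fin m) (fun i => τ i) f') → False := by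
      rintro ⟨f', hf'⟩
      exact hτ' f' hf'.1 hf'.2
    have d1X : ∀ i j, K'.X i < K'.X j →
        OrderDual.toDual (g1 i) < OrderDual.toDual (g1 j) :=
      fun i j hij => OrderDual.toDual_lt_toDual.2 (g1X i j hij)
    have d1Y : ∀ i j, K'.Y i < K'.Y j →
        OrderDual.toDual (τ (g1 i)) < OrderDual.toDual (τ (g1 j)) :=
      fun i j hij => OrderDual.toDual_lt_toDual.2 (g1Y i j hij)
    -- facts on the second configuration
    have a1 : g2 K.P < g2 K.P' := g2X _ _ (by rw [K.X_P, K.X_P']; omega)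
    have a2 : g2 K.P' < g2 K.x := g2X _ _ (by rw [K.X_x, K.X_P']; omega)
    have a3 : τ (g2 K.x) < τ (g2 K.P) := g2Y _ _ (by
      rw [K.Y_x, K.Y_P]; have := (π K.q').isLt; omega)
    have a4 : τ (g2 K.P) < τ (g2 K.P') := g2Y _ _ (by rw [K.Y_P, K.Y_P']; omega)
    -- facts on the first configuration
    have b1 : g1 K'.R < g1 K'.x := g1X _ _ (by rw [K'.X_x, K'.X_R]; omega)
    have b2 : τ (g1 K'.R) < τ (g1 K'.x) := g1Y _ _ (by
      rw [K'.Y_x, K'.Y_R]; have := (rc π K'.q').isLt; omega)
    have b3 : g1 K'.x < g1 K'.P := g1X _ _ (by rw [K'.X_x, K'.X_P]; omega)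
    -- step 1
    have c1 : g1 K'.R < g2 K.P := by
      rcases lt_trichotomy (g1 K'.R) (g2 K.P) with h | h | h
      · exact h
      · exfalso
        rw [h, hx] at b2
        exact lt_asymm b2 a3
      · exfalso
        apply occ2
        apply K.left_low (g := g2) g2X g2Y τ.injective (y := g1 K'.R) h
        · rw [← hx]; exact b1
        · rw [← hx]; exact b2
    -- step 2
    have key : ∀ y : Fin m, g1 K'.R < y → y < g1 K'.x → τ (g1 K'.x) < τ y → τ y < τ (g1 K'.d) := by
      intro y h1 h2 h3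
      rcases lt_trichotomy (τ y) (τ (g1 K'.d)) with h | h | h
      · exact h
      · exfalso
        have hy : y = g1 K'.d := τ.injective h
        rcases K'.dab with h' | h'
        · have := g1X K'.R K'.d (by rw [K'.X_R, K'.X_d]; omega)
          rw [← hy] at this
          exact lt_asymm h1 this
        · have := g1X K'.d K'.x (by rw [K'.X_x, K'.X_d]; omega)
          rw [← hy] at this
          exact lt_asymm h2 this
      · exfalso
        apply occ1
        exact K'.low (g := g1) d1X d1Y (y := y)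
          (OrderDual.toDual_lt_toDual.2 (h2.trans b3)) (OrderDual.toDual_lt_toDual.2 h1)
          (OrderDual.toDual_lt_toDual.2 h)
    have c2 : τ (g2 K.P') < τ (g1 K'.d) :=
      key _ (c1.trans a1) (by rw [hx]; exact a2) (by rw [hx]; exact a3.trans a4)
    -- step 3
    apply occ1
    refine K'.pair (g := g1) d1X d1Y (y := g2 K.P') (y' := g2 K.P) ?_ ?_ ?_ ?_ ?_ ?_
    · exact OrderDual.toDual_lt_toDual.2 ((by rw [hx]; exact a2 : g2 K.P' < g1 K'.x).trans b3)
    · exact OrderDual.toDual_lt_toDual.2 a1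
    · left; exact OrderDual.toDual_lt_toDual.2 c1
    · left; exact OrderDual.toDual_lt_toDual.2 c2
    · exact OrderDual.toDual_lt_toDual.2 a4
    · left
      exact OrderDual.toDual_lt_toDual.2 (by rw [hx]; exact a3)

end Dat

end Pool.Agent.TH691.US
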