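import Pool.Agent.TH691.US.Gadget

namespace Pool.Agent.TH691.US

open Equiv Pool.Agent.W6.PS

/-- a strictly increasing function from `Fin n` to the numbers below `n + e` moves every point by
at most `e`. -/
theorem shift {n e : ℕ} (h : Fin n → ℕ) (hm : ∀ i j : Fin n, i.val < j.val → h i < h j)
    (hb : ∀ i, h i < n + e) (i : Fin n) : i.val ≤ h i ∧ h i ≤ i.val + e := by
  constructor
  · obtain ⟨k, hk⟩ := i
    induction k with
    | zero => exact Nat.zero_le _
    | succ k ih =>
      have h1 := ih (by omega)
      have h2 := hm ⟨k, by omega⟩ ⟨k + 1, hk⟩ (by simp)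
      simp only at h1 h2 ⊢
      omega
  · have key : ∀ d : ℕ, ∀ i : Fin n, i.val + d + 1 = n → h i ≤ i.val + e := by
      intro d
      induction d with
      | zero =>
        intro i hi
        have := hb i
        omega
      | succ d ih =>
        intro i hi
        have h1 := ih ⟨i.val + 1, by omega⟩ (by simp only; omega)
        have h2 := hm i ⟨i.val + 1, by omega⟩ (by simp)
        simp only at h1
        omega
    exact key (n - 1 - i.val) i (by have := i.isLt; omega)

namespace Dat

variable {n : ℕ} {π : Perm (Fin n)} (K : Dat π)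

/-- the rank of the lower points in horizontal order -/
def xi (i : Fin n) : ℕ :=
  if K.b.val < K.a.val then
    (if i = K.q then K.q.val - 1 else if i.val + 1 = K.q.val then K.q.val else i.val)
  else (if i = K.q then K.q.val + 1 else if i = K.q' then K.q.val else i.val)

theorem xi_spec (i : Fin n) :
    (K.b.val < K.a.val ∧ i = K.q ∧ K.xi i + 1 = K.q.val) ∨
    (K.b.val < K.a.val ∧ i.val + 1 = K.q.val ∧ K.xi i = K.q.val) ∨
    (K.b.val < K.a.val ∧ i ≠ K.q ∧ i.val + 1 ≠ K.q.val ∧ K.xi i = i.val) ∨
    (K.a.val < K.b.val ∧ i = K.q ∧ K.xi i = K.q.val + 1) ∨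
    (K.a.val < K.b.val ∧ i = K.q' ∧ K.xi i = K.q.val) ∨
    (K.a.val < K.b.val ∧ i ≠ K.q ∧ i ≠ K.q' ∧ K.xi i = i.val) := by
  have h1 := K.q1
  have h2 := K.dab
  have hne := K.q_ne
  unfold xi
  by_cases hba : K.b.val < K.a.val
  · simp only [if_pos hba]
    by_cases hq : i = K.q
    · left
      refine ⟨hba, hq, ?_⟩
      rw [if_pos hq]; omega
    · right
      by_cases hq' : i.val + 1 = K.q.val
      · left
        refine ⟨hba, hq', ?_⟩
        rw [if_neg hq, if_pos hq']
      · right; left
        refine ⟨hba, hq, hq', ?_⟩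
        rw [if_neg hq, if_neg hq']
  · simp only [if_neg hba]
    have hab : K.a.val < K.b.val := by omega
    right; right; right
    by_cases hq : i = K.q
    · left
      refine ⟨hab, hq, ?_⟩
      rw [if_pos hq]
    · right
      by_cases hq' : i = K.q'
      · left
        refine ⟨hab, hq', ?_⟩
        rw [if_neg hq, if_pos hq']
      · right
        refine ⟨hab, hq, hq', ?_⟩
        rw [if_neg hq, if_neg hq']

theorem xi_lt (i : Fin n) : K.xi i < n := by
  have h1 := K.q1
  have h2 := K.q'.isLt
  have h3 := K.hq
  have h4 := i.isLt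
  have h5 := K.q.isLt
  rcases K.xi_spec i with ⟨_, _, h⟩ | ⟨_, _, h⟩ | ⟨_, _, _, h⟩ | ⟨_, _, h⟩ | ⟨_, _, h⟩ |
    ⟨_, _, _, h⟩ <;> omega

theorem xi_mono {i j : Fin n} (h : K.X (Sum.inl i) < K.X (Sum.inl j)) : K.xi i < K.xi j := by
  have h1 := K.q1
  have hq := K.hq
  have hab := K.dab
  have ha := K.a.isLt
  have hb := K.b.isLt
  have hi := i.isLt
  have hj := j.isLt
  have hij : i.val ≠ j.val := by
    intro h'
    rw [Fin.ext h'] at h
    exact lt_irrefl _ h
  have ei : (i = K.q ↔ i.val = K.q.val) := Fin.ext_iff
  have ei' : (i = K.q' ↔ i.val = K.q'.val) := Fin.ext_iff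
  have ej : (j = K.q ↔ j.val = K.q.val) := Fin.ext_iff
  have ej' : (j = K.q' ↔ j.val = K.q'.val) := Fin.ext_iff
  have Hi := K.X_inl i
  have Hj := K.X_inl j
  have Si := K.xi_spec i
  have Sj := K.xi_spec j
  omega

theorem tu {u : Fin n} (hu : (π u).val + 2 = n) :
    K.t.val + 5 ≤ u.val ∨ u.val + 5 ≤ K.t.val := by
  by_contra hcon
  have ht := K.ht
  have hn := K.hn
  apply K.hull
  refine ⟨2, min K.t.val u.val, le_refl _, by omega, ?_⟩
  intro i hi
  have h1 := (π i).isLt
  have h2 : i = K.t ∨ i = u := by
    rcases (by omega : (π i).val = (π K.t).val ∨ (π i).val = (π u).val) with h | h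
    · left; exact π.injective (Fin.ext h)
    · right; exact π.injective (Fin.ext h)
  rcases h2 with h | h
  · rw [h]; omega
  · rw [h]; omega

theorem t_ne : K.t ≠ K.q ∧ K.t ≠ K.q' := by
  have ht := K.ht
  have hπq := K.hπq
  have h1 := (π K.q').isLt
  constructor
  · intro h
    rw [h] at ht
    omega
  · intro h
    have h2 : (π K.q).val + 2 = n := by
      rw [h] at ht; omega
    have h3 := K.tu h2
    have h4 := K.hq
    have h5 := congrArg Fin.val h
    omega

theorem xi_t : K.xi K.t = K.t.val := by
  have h1 := K.t_ne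
  have h2 := K.tq
  rcases K.xi_spec K.t with ⟨_, h, h'⟩ | ⟨_, h, h'⟩ | ⟨_, _, _, h⟩ | ⟨_, h, h'⟩ | ⟨_, h, h'⟩ |
    ⟨_, _, _, h⟩
  · exact absurd h h1.1
  · exact absurd h h2
  · exact h
  · exact absurd h h1.1
  · exact absurd h h1.2
  · exact h

/-- no occurrence uses the lower points for all entries but the largest one. -/
theorem avoid_low {f : Fin n → K.I} (h : Occ π K.X K.Y f)
    (hf : ∀ i, i ≠ K.t → ∃ j, f i = Sum.inl j) : False := by
  classical
  have hn := K.hn
  have ht := K.ht
  choose g' hg' using hf
  let g : Fin n → Fin n := fun i => if h : i = K.t then i else g' i h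
  have hg : ∀ i, i ≠ K.t → f i = Sum.inl (g i) := by
    intro i hi
    simp only [g, dif_neg hi]
    exact hg' i hi
  have gx : ∀ i j, i ≠ K.t → j ≠ K.t → i < j → K.xi (g i) < K.xi (g j) := by
    intro i j hi hj hij
    apply K.xi_mono
    rw [← hg i hi, ← hg j hj]
    exact h.1 i j hij
  have gy : ∀ i j, i ≠ K.t → j ≠ K.t → π i < π j → π (g i) < π (g j) := by
    intro i j hi hj hij
    have := h.2 i j hij
    rw [hg i hi, hg j hj, Y_inl, Y_inl] at this
    exact this
  have gxinj : ∀ i j, i ≠ K.t → j ≠ K.t → K.xi (g i) = K.xi (g j) → i = j := by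
    intro i j hi hj hij
    rcases lt_trichotomy i j with h1 | h1 | h1
    · have := gx i j hi hj h1; omega
    · exact h1
    · have := gx j i hj hi h1; omega
  obtain ⟨u, hu⟩ : ∃ u : Fin n, (π u).val + 2 = n :=
    ⟨π.symm ⟨n - 2, by omega⟩, by simp; omega⟩
  have htu := K.tu hu
  have hut : u ≠ K.t := by
    intro h'
    have := congrArg Fin.val h'
    omega
  have h1 : g u ≠ K.t := by
    intro hgu
    have hxi : K.xi (g u) = K.t.val := by rw [hgu]; exact K.xi_t
    rcases htu with h2 | h2
    · -- `t < u`
      have h3 : ((Finset.Iio u).erase K.t).card ≤ (Finset.range K.t.val).card := by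
        apply Finset.card_le_card_of_injOn (fun i => K.xi (g i))
        · intro i hi
          simp only [Finset.coe_erase, Finset.coe_Iio, Set.mem_diff, Set.mem_Iio,
            Set.mem_singleton_iff] at hi
          simp only [Finset.coe_range, Set.mem_Iio]
          rw [← hxi]
          exact gx i u hi.2 hut hi.1
        · intro i hi j hj hij
          simp only [Finset.coe_erase, Finset.coe_Iio, Set.mem_diff, Set.mem_Iio,
            Set.mem_singleton_iff] at hi hj
          exact gxinj i j hi.2 hj.2 hij
      rw [Finset.card_erase_of_mem (by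
        rw [Finset.mem_Iio, Fin.lt_def]; omega), Fin.card_Iio, Finset.card_range] at h3
      omega
    · have h3 : ((Finset.Ioi u).erase K.t).card ≤ (Finset.Ioo K.t.val n).card := by
        apply Finset.card_le_card_of_injOn (fun i => K.xi (g i))
        · intro i hi
          simp only [Finset.coe_erase, Finset.coe_Ioi, Set.mem_diff, Set.mem_Ioi,
            Set.mem_singleton_iff] at hi
          simp only [Finset.coe_Ioo, Set.mem_Ioo]
          refine ⟨?_, K.xi_lt _⟩
          rw [← hxi]
          exact gx u i hut hi.2 hi.1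
        · intro i hi j hj hij
          simp only [Finset.coe_erase, Finset.coe_Ioi, Set.mem_diff, Set.mem_Ioi,
            Set.mem_singleton_iff] at hi hj
          exact gxinj i j hi.2 hj.2 hij
      rw [Finset.card_erase_of_mem (by
        rw [Finset.mem_Ioi, Fin.lt_def]; omega), Fin.card_Ioi, Nat.card_Ioo] at h3
      have := u.isLt
      have := K.t.isLt
      omega
  have h2 : ∀ i, i ≠ K.t → g i ≠ K.t := by
    intro i hi hgi
    by_cases hiu : i = u
    · exact h1 (hiu ▸ hgi)
    · have h3 : π i < π u := by
        rw [Fin.lt_def]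
        have e1 : (π i).val ≠ (π u).val := fun h => hiu (π.injective (Fin.ext h))
        have e2 : (π i).val ≠ (π K.t).val := fun h => hi (π.injective (Fin.ext h))
        have := (π i).isLt
        omega
      have h4 := gy i u hi hut h3
      rw [hgi, Fin.lt_def] at h4
      have := (π (g u)).isLt
      omega
  have h3 : ∀ i, i ≠ K.t → π (g i) = π i := by
    have key := shift (n := n - 1) (e := 0)
      (fun k => (π (g (π.symm ⟨k.val, by have := k.isLt; omega⟩))).val) ?_ ?_
    · intro i hi
      have e2 : (π i).val ≠ (π K.t).val := fun h => hi (π.injective (Fin.ext h))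
      have := (π i).isLt
      have h4 := key ⟨(π i).val, by omega⟩
      simp only [Fin.eta, Equiv.symm_apply_apply] at h4
      apply Fin.ext
      omega
    · intro i j hij
      have hi := i.isLt
      have hj := j.isLt
      rw [← Fin.lt_def]
      apply gy
      · intro h'
        have := congrArg (fun z => (π z).val) h'
        simp only [Equiv.apply_symm_apply] at this
        omega
      · intro h'
        have := congrArg (fun z => (π z).val) h'
        simp only [Equiv.apply_symm_apply] at this
        omega
      · simp only [Equiv.apply_symm_apply]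
        exact hij
    · intro i
      have hi := i.isLt
      have h4 := h2 (π.symm ⟨i.val, by omega⟩) (by
        intro h'
        have := congrArg (fun z => (π z).val) h'
        simp only [Equiv.apply_symm_apply] at this
        omega)
      have h5 : (π (g (π.symm ⟨i.val, by omega⟩))).val ≠ (π K.t).val :=
        fun h => h4 (π.injective (Fin.ext h))
      have := (π (g (π.symm ⟨i.val, by omega⟩))).isLt
      omega
  have h4 : ∀ i, i ≠ K.t → g i = i := fun i hi => π.injective (h3 i hi)
  have h5 := K.t_ne
  have h6 := K.tq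
  have hq := K.hq
  have hq1 := K.q1
  rcases K.dab with hab | hab
  · have h7 := gx K.q K.q' h5.1.symm h5.2.symm (by rw [Fin.lt_def]; omega)
    rw [h4 _ h5.1.symm, h4 _ h5.2.symm] at h7
    have h8 := K.xi_spec K.q
    have h9 := K.xi_spec K.q'
    have := K.q_ne
    have ei : (K.q' = K.q ↔ K.q'.val = K.q.val) := Fin.ext_iff
    simp only [true_and, ne_eq, not_true_eq_false, false_and, and_false, or_false, false_or] at h8 h9
    omega
  · obtain ⟨z, hz⟩ : ∃ z : Fin n, z.val + 1 = K.q.val :=
      ⟨⟨K.q.val - 1, by have := K.q.isLt; omega⟩, by simp; omega⟩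
    have hzt : z ≠ K.t := by
      intro h'; rw [h'] at hz; exact h6 hz
    have h7 := gx z K.q hzt h5.1.symm (by rw [Fin.lt_def]; omega)
    rw [h4 _ h5.1.symm, h4 _ hzt] at h7
    have h8 := K.xi_spec K.q
    have h9 := K.xi_spec z
    have ei : (z = K.q ↔ z.val = K.q.val) := Fin.ext_iff
    simp only [true_and, ne_eq, not_true_eq_false, false_and, and_false, or_false, false_or] at h8 h9
    omega

end Dat

end Pool.Agent.TH691.US
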