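import Pool.Agent.TH691.US.Avoid

namespace Pool.Agent.TH691.US

open Equiv Pool.Agent.W6.PS

namespace Dat

variable {n : ℕ} {π : Perm (Fin n)} (K : Dat π)

/-- the points in the horizontal range of the upper block -/
def W (z : K.I) : Prop :=
  z.isRight = true ∨ z = Sum.inl K.q' ∨ z = Sum.inl K.q ∨
    (K.b.val < K.a.val ∧ ∃ i : Fin n, i.val + 1 = K.q.val ∧ z = Sum.inl i)

/-- a point whose horizontal coordinate is between those of two upper points is in `W`. -/
theorem W_of {z : K.I} (h1 : n + 9 < K.X z + 1 + 1) (h2 : K.X z < 4 * n + 20) : K.W z := by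
  rcases z with i | z
  · right
    have hn := i.isLt
    rcases K.X_inl i with ⟨h, _⟩ | ⟨h, _⟩ | ⟨h, h', _⟩ | ⟨_, _, h⟩ | ⟨_, h⟩
    · left; rw [h]
    · right; left; rw [h]
    · right; right; exact ⟨h', i, h, rfl⟩
    · omega
    · omega
  · left; rfl

/-- the rank of the points of `W` -/
def rho (z : K.I) : ℕ :=
  let v := K.X z
  if v = n + 7 + 2 * K.a.val then K.a.val - 1
  else if v = n + 9 + 2 * K.a.val then K.a.val + 1
  else (v - (n + 10)) / 2 + (if n + 8 + 2 * K.a.val ≤ v then 1 else 0) +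
    (if n + 10 + 2 * K.a.val ≤ v then 1 else 0)

theorem X_W {z : K.I} (hz : K.W z) :
    (K.X z = n + 7 + 2 * K.a.val) ∨ (K.X z = n + 9 + 2 * K.a.val) ∨
      (∃ j, j < n ∧ K.X z = n + 10 + 2 * j) := by
  rcases z with i | (_ | j)
  · rcases hz with h | h | h | ⟨h, j, hj, h'⟩
    · simp at h
    · right; right
      rw [h, K.X_q']
      exact ⟨_, K.a.isLt, rfl⟩
    · right; right
      rw [h, K.X_q]
      exact ⟨_, K.b.isLt, rfl⟩
    · left
      rw [h']
      have hq := K.hq
      rcases K.X_inl j with ⟨h1, h1'⟩ | ⟨h1, h1'⟩ | ⟨h1, h1', h1''⟩ | ⟨h1, h1', h1''⟩ | ⟨h1, h1'⟩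
      · have := congrArg Fin.val h1; omega
      · have := congrArg Fin.val h1; omega
      · exact h1''
      · exact absurd ⟨hj, h⟩ h1'
      · omega
  · right; left; rfl
  · right; right
    exact ⟨_, j.1.isLt, rfl⟩

theorem rho_mono {z z' : K.I} (hz : K.W z) (hz' : K.W z') (h : K.X z < K.X z') :
    K.rho z < K.rho z' := by
  have h1 := K.X_W hz
  have h2 := K.X_W hz'
  have ha := K.hp
  have han := K.a.isLt
  unfold rho
  simp only
  rcases h1 with h1 | h1 | ⟨j, hj, h1⟩ <;> rcases h2 with h2 | h2 | ⟨k, hk, h2⟩ <;>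
    split_ifs <;> omega

theorem rho_lt {z : K.I} (hz : K.W z) : K.rho z < n + 2 := by
  have h1 := K.X_W hz
  have ha := K.hp
  have han := K.a.isLt
  unfold rho
  simp only
  rcases h1 with h1 | h1 | ⟨j, hj, h1⟩ <;> split_ifs <;> omega

/-- positions are almost preserved by an occurrence in `W`. -/
theorem near {f : Fin n → K.I} (h : Occ π K.X K.Y f) (hW : ∀ i, K.W (f i)) (i : Fin n) :
    n + 10 + 2 * i.val ≤ K.X (f i) + 4 ∧ K.X (f i) ≤ n + 10 + 2 * i.val + 4 ∧
      ¬ (K.X (f i) = n + 7 + 2 * K.a.val ∧ K.a.val ≤ i.val) := by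
  have key := shift (n := n) (e := 2) (fun i => K.rho (f i))
    (fun i j hij => K.rho_mono (hW i) (hW j) (h.1 i j hij)) (fun i => K.rho_lt (hW i)) i
  have h1 := K.X_W (hW i)
  have ha := K.hp
  have han := K.a.isLt
  unfold rho at key
  simp only at key
  rcases h1 with h1 | h1 | ⟨j, hj, h1⟩ <;> rw [h1] at key ⊢ <;> split_ifs at key <;> omega

theorem card_right : Fintype.card (Option {i : Fin n // i ≠ K.a ∧ i ≠ K.b}) + 1 = n := by
  classical
  have h1 : K.a ≠ K.b := by
    intro h
    have := congrArg Fin.val h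
    have := K.dab
    omega
  have h2 : Fintype.card {i : Fin n // i ≠ K.a ∧ i ≠ K.b} = n - 2 := by
    rw [Fintype.card_subtype]
    have h3 : (Finset.univ.filter (fun i : Fin n => i ≠ K.a ∧ i ≠ K.b)) =
        (Finset.univ.erase K.a).erase K.b := by
      ext i
      simp only [Finset.mem_filter, Finset.mem_univ, true_and, Finset.mem_erase, and_true]
      tauto
    rw [h3, Finset.card_erase_of_mem (by simp [h1.symm]), Finset.card_erase_of_mem (by simp)]
    simp
    omega
  rw [Fintype.card_option, h2]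
  have := K.hn
  omega

theorem Y_right {z : K.I} (hz : z.isRight = true) : n + 4 ≤ K.Y z := by
  have key : ∀ j : Fin n, j ≠ K.a → j ≠ K.b → 2 ≤ (π j).val := by
    intro j h1 h2
    have e1 : (π j).val ≠ (π K.a).val := fun h => h1 (π.injective (Fin.ext h))
    have e2 : (π j).val ≠ (π K.b).val := fun h => h2 (π.injective (Fin.ext h))
    have := K.ha
    have := K.hb
    omega
  rcases z with i | (_ | j)
  · simp at hz
  · rw [Y_none]
    have := key K.p K.p_ne.1 K.p_ne.2
    omega
  · rw [Y_some]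
    have := key j.1 j.2.1 j.2.2
    omega

theorem Y_left {z : K.I} (hz : ¬ z.isRight = true) : K.Y z < n := by
  rcases z with i | j
  · rw [Y_inl]; exact (π i).isLt
  · simp at hz

theorem X_right {z : K.I} (hz : z.isRight = true) : n + 10 ≤ K.X z + 1 ∧ K.X z < 3 * n + 10 := by
  rcases z with i | (_ | j)
  · simp at hz
  · rw [X_none]
    have := K.a.isLt
    omega
  · rw [X_some]
    have := j.1.isLt
    omega

end Dat

end Pool.Agent.TH691.US
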