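import Pool.Agent.TH691.US.Avoid2

namespace Pool.Agent.TH691.US

open Equiv Pool.Agent.W6.PS

namespace Dat

variable {n : ℕ} {π : Perm (Fin n)} (K : Dat π)

theorem between {f : Fin n → K.I} (h : Occ π K.X K.Y f) {i j k : Fin n} (hij : i < j) (hjk : j < k)
    (hi : (f i).isRight = true) (hk : (f k).isRight = true) : K.W (f j) := by
  have h1 := h.1 i j hij
  have h2 := h.1 j k hjk
  have h3 := K.X_right hi
  have h4 := K.X_right hk
  apply K.W_of
  · omega
  · omega

theorem up {f : Fin n → K.I} (h : Occ π K.X K.Y f) {i j : Fin n} (hij : π i ≤ π j)
    (hi : (f i).isRight = true) : (f j).isRight = true := by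
  by_contra hj
  have h1 := K.Y_right hi
  have h2 := K.Y_left hj
  rcases lt_or_eq_of_le hij with h3 | h3
  · have := h.2 i j h3
    omega
  · rw [π.injective h3] at hi
    exact hj hi

/-- the configuration avoids `π`. -/
theorem avoid {f : Fin n → K.I} (h : Occ π K.X K.Y f) : False := by
  classical
  have hn := K.hn
  have hinj : Function.Injective f := occ_inj h
  have ht := K.ht
  have hab := K.dab
  have hbc := K.dbc
  have hac := K.dac
  have ha := K.ha
  have hb := K.hb
  have hc := K.hc
  by_cases hlow : ∀ i, i ≠ K.t → ∃ j, f i = Sum.inl j
  · exact K.avoid_low h hlow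
  push Not at hlow
  obtain ⟨i0, hi0, hi0'⟩ := hlow
  have hi0r : (f i0).isRight = true := by
    rcases hf : f i0 with j | j
    · exact absurd hf (hi0' j)
    · rfl
  -- the smallest value in the upper block
  have hex : ∃ v : ℕ, ∃ i : Fin n, (f i).isRight = true ∧ (π i).val = v := ⟨_, i0, hi0r, rfl⟩
  obtain ⟨i1, hi1, hi1v⟩ := Nat.find_spec hex
  set v0 := Nat.find hex with hv0
  have hS : ∀ i, (f i).isRight = true ↔ v0 ≤ (π i).val := by
    intro i
    constructor
    · intro hi
      exact Nat.find_min' hex ⟨i, hi, rfl⟩
    · intro hi
      apply K.up h (i := i1) _ hi1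
      rw [Fin.le_def]
      omega
  have hv0n : v0 + 2 ≤ n := by
    have h1 := (hS i0).1 hi0r
    have h2 : (π i0).val ≠ (π K.t).val := fun h => hi0 (π.injective (Fin.ext h))
    have := (π i0).isLt
    omega
  have hv03 : v0 ≤ 3 := by
    by_contra hcon
    apply K.hull
    set S : Finset (Fin n) := Finset.univ.filter (fun i => (f i).isRight = true) with hSdef
    have hSne : S.Nonempty := ⟨i1, by simp [hSdef, hi1]⟩
    obtain ⟨s, hs, hsmin⟩ := S.exists_min_image (fun i => i.val) hSne
    obtain ⟨e, he, hemax⟩ := S.exists_max_image (fun i => i.val) hSne
    have hsr : (f s).isRight = true := by simpa [hSdef] using hs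
    have her : (f e).isRight = true := by simpa [hSdef] using he
    have hScard : S.card ≤ n - v0 := by
      have h1 : S.card ≤ (Finset.Ico v0 n).card := by
        apply Finset.card_le_card_of_injOn (fun i => (π i).val)
        · intro i hi
          simp only [hSdef, Finset.coe_filter, Finset.mem_univ, true_and, Set.mem_setOf_eq] at hi
          simp only [Finset.coe_Ico, Set.mem_Ico]
          exact ⟨(hS i).1 hi, (π i).isLt⟩
        · intro i hi j hj hij
          exact π.injective (Fin.ext hij)
      rw [Nat.card_Ico] at h1
      exact h1
    set T : Finset (Fin n) := Finset.univ.filter (fun i => K.W (f i) ∧ ¬ (f i).isRight = true)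
      with hTdef
    have hTcard : T.card ≤ 3 := by
      have h1 : (T.image f).card ≤ 3 := by
        by_cases hz : ∃ z : Fin n, z.val + 1 = K.q.val
        · obtain ⟨z, hz⟩ := hz
          have h2 : T.image f ⊆ {Sum.inl K.q', Sum.inl K.q, Sum.inl z} := by
            intro y hy
            simp only [hTdef, Finset.mem_image, Finset.mem_filter, Finset.mem_univ, true_and] at hy
            obtain ⟨i, ⟨hi1, hi2⟩, rfl⟩ := hy
            simp only [Finset.mem_insert, Finset.mem_singleton]
            rcases hi1 with h | h | h | ⟨_, j, hj, h⟩
            · exact absurd h hi2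
            · left; exact h
            · right; left; exact h
            · right; right
              rw [h]
              have : j = z := Fin.ext (by omega)
              rw [this]
          exact (Finset.card_le_card h2).trans Finset.card_le_three
        · have h2 : T.image f ⊆ {Sum.inl K.q', Sum.inl K.q} := by
            intro y hy
            simp only [hTdef, Finset.mem_image, Finset.mem_filter, Finset.mem_univ, true_and] at hy
            obtain ⟨i, ⟨hi1, hi2⟩, rfl⟩ := hy
            simp only [Finset.mem_insert, Finset.mem_singleton]
            rcases hi1 with h | h | h | ⟨_, j, hj, h⟩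
            · exact absurd h hi2
            · left; exact h
            · right; exact h
            · exact absurd ⟨j, hj⟩ hz
          exact ((Finset.card_le_card h2).trans Finset.card_le_two).trans (by norm_num)
      rwa [Finset.card_image_of_injective _ hinj] at h1
    have hIcc : Finset.Icc s e ⊆ S ∪ T := by
      intro i hi
      rw [Finset.mem_Icc] at hi
      rw [Finset.mem_union]
      by_cases hir : (f i).isRight = true
      · left; simp [hSdef, hir]
      · right
        have h1 : s < i := lt_of_le_of_ne hi.1 (fun h => hir (h ▸ hsr))
        have h2 : i < e := lt_of_le_of_ne hi.2 (fun h => hir (h ▸ her))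
        simp only [hTdef, Finset.mem_filter, Finset.mem_univ, true_and]
        exact ⟨K.between h h1 h2 hsr her, hir⟩
    have hcard := (Finset.card_le_card hIcc).trans (Finset.card_union_le _ _)
    rw [Fin.card_Icc] at hcard
    refine ⟨n - v0, s.val, by omega, by omega, ?_⟩
    intro i hi
    have hir : (f i).isRight = true := (hS i).2 (by omega)
    have h1 : i ∈ S := by simp [hSdef, hir]
    have h2 := hsmin i h1
    have h3 := hemax i h1
    omega
  -- now everything is in the horizontal range of the upper block
  have hW : ∀ i, K.W (f i) := by
    intro i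
    by_cases hir : (f i).isRight = true
    · left; exact hir
    · have hz : (f ⟨0, by omega⟩).isRight = true := by
        rw [hS]
        have := K.e0 ⟨0, by omega⟩ rfl
        omega
      have hl : (f ⟨n - 1, by omega⟩).isRight = true := by
        rw [hS]
        have := K.e1 ⟨n - 1, by omega⟩ (by simp; omega)
        omega
      refine K.between h ?_ ?_ hz hl
      · apply lt_of_le_of_ne
        · rw [Fin.le_def]; exact Nat.zero_le _
        · intro h'; rw [← h'] at hir; exact hir hz
      · apply lt_of_le_of_ne
        · rw [Fin.le_def]; have := i.isLt; simp only; omega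
        · intro h'; rw [h'] at hir; exact hir hl
  have hnear := K.near h hW
  -- the value `0` is not in the upper block
  have hfa : ¬ (f K.a).isRight = true := by
    intro hfa
    have hall : ∀ i, (f i).isRight = true := by
      intro i
      rw [hS] at hfa ⊢
      omega
    have h1 : Fintype.card (Fin n) ≤ Fintype.card (Option {i : Fin n // i ≠ K.a ∧ i ≠ K.b}) := by
      apply Fintype.card_le_of_injective (fun i => (f i).getRight (hall i))
      intro i j hij
      apply hinj
      have h2 := Sum.inr_getRight (f i) (hall i)
      have h3 := Sum.inr_getRight (f j) (hall j)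
      rw [← h2, ← h3]
      simp only at hij
      rw [hij]
    have h2 := K.card_right
    rw [Fintype.card_fin] at h1
    omega
  by_cases hfb : (f K.b).isRight = true
  · -- `v0 = 1`
    have hv1 : v0 = 1 := by
      have h1 := (hS K.b).1 hfb
      have h2 : ¬ v0 ≤ (π K.a).val := fun h => hfa ((hS K.a).2 h)
      omega
    -- `some c` is in the image
    have hca : K.c ≠ K.a := by intro h'; have := congrArg Fin.val h'; omega
    have hcb : K.c ≠ K.b := by intro h'; have := congrArg Fin.val h'; omega
    have hsurj : ∃ i, f i = Sum.inr (some ⟨K.c, hca, hcb⟩) := by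
      by_contra hcon
      push Not at hcon
      have hall : ∀ i : {i : Fin n // i ≠ K.a}, (f i.1).isRight = true := by
        intro i
        rw [hS]
        have : (π i.1).val ≠ (π K.a).val := fun h => i.2 (π.injective (Fin.ext h))
        omega
      have h1 : Fintype.card {i : Fin n // i ≠ K.a} <
          Fintype.card (Option {i : Fin n // i ≠ K.a ∧ i ≠ K.b}) := by
        apply Fintype.card_lt_of_injective_of_notMem
          (fun i : {i : Fin n // i ≠ K.a} => (f i.1).getRight (hall i))
          (b := some ⟨K.c, hca, hcb⟩)
        · intro i j hij
          apply Subtype.ext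
          apply hinj
          have h2 := Sum.inr_getRight (f i.1) (hall i)
          have h3 := Sum.inr_getRight (f j.1) (hall j)
          rw [← h2, ← h3]
          simp only at hij
          rw [hij]
        · rintro ⟨i, hi⟩
          apply hcon i.1
          have h2 := Sum.inr_getRight (f i.1) (hall i)
          simp only at hi
          rw [← h2, hi]
      have h2 := K.card_right
      have h3 : Fintype.card {i : Fin n // i ≠ K.a} = n - 1 := by
        simp [Fintype.card_subtype_compl]
      omega
    obtain ⟨i, hi⟩ := hsurj
    have hib : i = K.b := by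
      by_contra hib
      have h1 : (π i).val ≠ (π K.b).val := fun h => hib (π.injective (Fin.ext h))
      have h2 : (f i).isRight = true := by rw [hi]; rfl
      have h3 := (hS i).1 h2
      have h4 := h.2 K.b i (by rw [Fin.lt_def]; omega)
      have h5 := K.Y_right hfb
      rw [hi, Y_some] at h4
      simp only at h4
      omega
    have h1 := hnear K.b
    rw [← hib, hi, X_some] at h1
    simp only at h1
    have := congrArg Fin.val hib
    omega
  · -- `v0 ≥ 2`
    have hxa : f K.a = Sum.inl K.q' := by
      rcases hW K.a with h1 | h1 | h1 | ⟨h1, j, hj, h2⟩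
      · exact absurd h1 hfa
      · exact h1
      · have h2 := hnear K.a
        rw [h1, K.X_q] at h2
        omega
      · have h3 := hnear K.a
        have h4 := K.X_W (hW K.a)
        have hq := K.hq
        have h5 : K.X (f K.a) = n + 7 + 2 * K.a.val := by
          rw [h2]
          rcases K.X_inl j with ⟨h, _⟩ | ⟨h, _⟩ | ⟨h, h', h''⟩ | ⟨h, h', _⟩ | ⟨h, _⟩
          · have := congrArg Fin.val h; omega
          · have := congrArg Fin.val h; omega
          · exact h''
          · exact absurd ⟨hj, h1⟩ h'
          · omega
        exact absurd ⟨h5, le_refl _⟩ h3.2.2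
    have hxb : f K.b = Sum.inl K.q := by
      rcases hW K.b with h1 | h1 | h1 | ⟨h1, j, hj, h2⟩
      · exact absurd h1 hfb
      · have h2 := hnear K.b
        rw [h1, K.X_q'] at h2
        omega
      · exact h1
      · have h3 := hnear K.b
        have hq := K.hq
        have h5 : K.X (f K.b) = n + 7 + 2 * K.a.val := by
          rw [h2]
          rcases K.X_inl j with ⟨h, _⟩ | ⟨h, _⟩ | ⟨h, h', h''⟩ | ⟨h, h', _⟩ | ⟨h, _⟩
          · have := congrArg Fin.val h; omega
          · have := congrArg Fin.val h; omega
          · exact h''
          · exact absurd ⟨hj, h1⟩ h'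
          · omega
        omega
    have h1 := h.2 K.a K.b (by rw [Fin.lt_def]; omega)
    rw [hxa, hxb, Y_inl, Y_inl] at h1
    have := K.hπq
    omega

end Dat

end Pool.Agent.TH691.US
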