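import Pool.Agent.W6.PS.Defs

/-!
Definitions for the asymptotics of the probability that `Av(π)` is unsplittable.
-/

namespace Pool.Agent.TH691.US

open Equiv

open Classical in
/-- the proportion of the permutations of `Fin n` which have the property `P`. -/
noncomputable def frac (n : ℕ) (P : Perm (Fin n) → Prop) : ℝ :=
  ((Finset.univ.filter P).card : ℝ) / (n.factorial : ℝ)

/-- `π` has two consecutive positions with consecutive values. -/
def HasAdj {n : ℕ} (π : Perm (Fin n)) : Prop :=
  ∃ i j : Fin n, j.val = i.val + 1 ∧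
    ((π j).val = (π i).val + 1 ∨ (π i).val = (π j).val + 1)

/-- `π` maps some `k` consecutive positions to `k` consecutive values. -/
def HasBlock {n : ℕ} (π : Perm (Fin n)) (k : ℕ) : Prop :=
  ∃ s v : ℕ, s + k ≤ n ∧ ∀ i : Fin n, s ≤ i.val → i.val < s + k →
    v ≤ (π i).val ∧ (π i).val < v + k

/-- for some `2 ≤ k ≤ n - 4` the positions of the `k` largest values lie in an interval of
length `k + 3`. -/
def HullBad {n : ℕ} (π : Perm (Fin n)) : Prop :=
  ∃ k s : ℕ, 2 ≤ k ∧ k + 4 ≤ n ∧ ∀ i : Fin n, n ≤ (π i).val + k →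
    s ≤ i.val ∧ i.val < s + k + 3

/-- a small value (`0`, `1`, `2`) at the first or at the last position, or two small values close to
each other, or an increasing adjacency just after the largest value, or an increasing adjacency
at the beginning. -/
def LowBad {n : ℕ} (π : Perm (Fin n)) : Prop :=
  (∃ i : Fin n, (i.val = 0 ∨ i.val + 1 = n) ∧ (π i).val < 3) ∨
  (∃ i j : Fin n, i.val < j.val ∧ j.val < i.val + 10 ∧ (π i).val < 3 ∧ (π j).val < 3) ∨
  (∃ i j k : Fin n, j.val = i.val + 1 ∧ k.val = j.val + 1 ∧ (π i).val + 1 = n ∧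
    (π k).val = (π j).val + 1) ∨
  (∃ i j : Fin n, i.val = 0 ∧ j.val = 1 ∧ (π j).val = (π i).val + 1)

end Pool.Agent.TH691.US
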