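import Pool.Agent.TH691.US.Defs
import Pool.Agent.W6.PS.Comb

namespace Pool.Agent.TH691.US

open Equiv Pool.Agent.W6.PS

/-- an increasing adjacency `q, q'` together with the generic conditions. -/
structure Dat {n : ℕ} (π : Perm (Fin n)) where
  q : Fin n
  q' : Fin n
  a : Fin n
  b : Fin n
  c : Fin n
  t : Fin n
  p : Fin n
  r : Fin n
  hq : q'.val = q.val + 1
  hπq : (π q').val = (π q).val + 1
  ha : (π a).val = 0
  hb : (π b).val = 1
  hc : (π c).val = 2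
  ht : (π t).val + 1 = n
  hp : p.val + 1 = a.val
  hr : r.val = a.val + 1
  q1 : 1 ≤ q.val
  tq : t.val + 1 ≠ q.val
  hull : ¬ HullBad π
  e0 : ∀ i : Fin n, i.val = 0 → 3 ≤ (π i).val
  e1 : ∀ i : Fin n, i.val + 1 = n → 3 ≤ (π i).val
  dab : a.val + 10 ≤ b.val ∨ b.val + 10 ≤ a.val
  dbc : b.val + 10 ≤ c.val ∨ c.val + 10 ≤ b.val
  dac : a.val + 10 ≤ c.val ∨ c.val + 10 ≤ a.val
  hn : 20 ≤ n

namespace Dat

variable {n : ℕ} {π : Perm (Fin n)} (K : Dat π)

/-- index type of the configuration -/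
abbrev I : Type := Fin n ⊕ Option {i : Fin n // i ≠ K.a ∧ i ≠ K.b}

/-- horizontal coordinate -/
def X : K.I → ℕ
  | Sum.inl i => if i = K.q' then n + 10 + 2 * K.a.val else if i = K.q then n + 10 + 2 * K.b.val
      else if i.val + 1 = K.q.val ∧ K.b.val < K.a.val then n + 7 + 2 * K.a.val
      else if i.val < K.q.val then i.val else 4 * n + 20 + i.val
  | Sum.inr none => n + 9 + 2 * K.a.val
  | Sum.inr (some j) => n + 10 + 2 * j.1.val

/-- vertical coordinate -/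
def Y : K.I → ℕ
  | Sum.inl i => (π i).val
  | Sum.inr none => n + 2 * (π K.p).val + 1
  | Sum.inr (some j) => n + 2 * (π j.1).val

theorem X_none : K.X (Sum.inr none) = n + 9 + 2 * K.a.val := rfl

theorem X_some (j : {i : Fin n // i ≠ K.a ∧ i ≠ K.b}) :
    K.X (Sum.inr (some j)) = n + 10 + 2 * j.1.val := rfl

theorem X_inl (i : Fin n) :
    (i = K.q' ∧ K.X (Sum.inl i) = n + 10 + 2 * K.a.val) ∨
    (i = K.q ∧ K.X (Sum.inl i) = n + 10 + 2 * K.b.val) ∨
    (i.val + 1 = K.q.val ∧ K.b.val < K.a.val ∧ K.X (Sum.inl i) = n + 7 + 2 * K.a.val) ∨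
    (i.val < K.q.val ∧ ¬ (i.val + 1 = K.q.val ∧ K.b.val < K.a.val) ∧ K.X (Sum.inl i) = i.val) ∨
    (K.q'.val < i.val ∧ K.X (Sum.inl i) = 4 * n + 20 + i.val) := by
  have hq := K.hq
  unfold X
  by_cases h1 : i = K.q'
  · left
    refine ⟨h1, ?_⟩
    simp [h1]
  · right
    by_cases h2 : i = K.q
    · left
      refine ⟨h2, ?_⟩
      have h3 : K.q ≠ K.q' := by
        intro h; rw [h2] at h1; exact h1 h
      simp [h2, h3]
    · right
      by_cases h3 : i.val + 1 = K.q.val ∧ K.b.val < K.a.val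
      · left
        refine ⟨h3.1, h3.2, ?_⟩
        simp only [if_neg h1, if_neg h2, if_pos h3]
      · right
        by_cases h4 : i.val < K.q.val
        · left
          refine ⟨h4, h3, ?_⟩
          simp only [if_neg h1, if_neg h2, if_neg h3, if_pos h4]
        · right
          have h1' : i.val ≠ K.q'.val := fun h => h1 (Fin.ext h)
          have h2' : i.val ≠ K.q.val := fun h => h2 (Fin.ext h)
          refine ⟨by omega, ?_⟩
          simp only [if_neg h1, if_neg h2, if_neg h3, if_neg h4]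

theorem Y_inl (i : Fin n) : K.Y (Sum.inl i) = (π i).val := rfl

theorem Y_none : K.Y (Sum.inr none) = n + 2 * (π K.p).val + 1 := rfl

theorem Y_some (j : {i : Fin n // i ≠ K.a ∧ i ≠ K.b}) :
    K.Y (Sum.inr (some j)) = n + 2 * (π j.1).val := rfl

theorem X_q : K.X (Sum.inl K.q) = n + 10 + 2 * K.b.val := by
  have hq := K.hq
  rcases K.X_inl K.q with ⟨h, h'⟩ | ⟨_, h'⟩ | ⟨h, _, _⟩ | ⟨h, _⟩ | ⟨h, _⟩
  · have := congrArg Fin.val h; omega
  · exact h'
  · omega
  · omega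
  · omega

theorem X_q' : K.X (Sum.inl K.q') = n + 10 + 2 * K.a.val := by
  have hq := K.hq
  rcases K.X_inl K.q' with ⟨h, h'⟩ | ⟨h, h'⟩ | ⟨h, _, _⟩ | ⟨h, _⟩ | ⟨h, _⟩
  · exact h'
  · have := congrArg Fin.val h; omega
  · omega
  · omega
  · omega

theorem q_ne : K.q ≠ K.q' := by
  intro h
  have := K.hq
  rw [← h] at this
  omega

theorem p_ne : K.p ≠ K.a ∧ K.p ≠ K.b := by
  have h1 := K.hp
  have h2 := K.dab
  constructor
  · intro h
    have := congrArg Fin.val h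
    omega
  · intro h
    have := congrArg Fin.val h
    omega

theorem r_ne : K.r ≠ K.a ∧ K.r ≠ K.b := by
  have h1 := K.hr
  have h2 := K.dab
  constructor
  · intro h
    have := congrArg Fin.val h
    omega
  · intro h
    have := congrArg Fin.val h
    omega

theorem X_mono {i j : Fin n} (h : i.val < j.val) (hi : i ≠ K.q) (hj : j ≠ K.q) :
    K.X (Sum.inl i) < K.X (Sum.inl j) := by
  have hq := K.hq
  have hi' : i.val ≠ K.q.val := fun h => hi (Fin.ext h)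
  have hj' : j.val ≠ K.q.val := fun h => hj (Fin.ext h)
  have ha := K.a.isLt
  have := i.isLt
  have := j.isLt
  rcases K.X_inl i with ⟨h1, h1'⟩ | ⟨h1, _⟩ | ⟨h1, h1', h1''⟩ | ⟨h1, h1', h1''⟩ | ⟨h1, h1'⟩
  · have e1 := congrArg Fin.val h1
    rcases K.X_inl j with ⟨h2, h2'⟩ | ⟨h2, _⟩ | ⟨h2, h2', h2''⟩ | ⟨h2, h2', h2''⟩ | ⟨h2, h2'⟩
    · have e2 := congrArg Fin.val h2; omega
    · exact absurd h2 hj
    · omega
    · omega
    · omega
  · exact absurd h1 hi
  · rcases K.X_inl j with ⟨h2, h2'⟩ | ⟨h2, _⟩ | ⟨h2, h2', h2''⟩ | ⟨h2, h2', h2''⟩ | ⟨h2, h2'⟩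
    · have e2 := congrArg Fin.val h2; omega
    · exact absurd h2 hj
    · omega
    · omega
    · omega
  · rcases K.X_inl j with ⟨h2, h2'⟩ | ⟨h2, _⟩ | ⟨h2, h2', h2''⟩ | ⟨h2, h2', h2''⟩ | ⟨h2, h2'⟩
    · have e2 := congrArg Fin.val h2; omega
    · exact absurd h2 hj
    · omega
    · omega
    · omega
  · rcases K.X_inl j with ⟨h2, h2'⟩ | ⟨h2, _⟩ | ⟨h2, h2', h2''⟩ | ⟨h2, h2', h2''⟩ | ⟨h2, h2'⟩
    · have e2 := congrArg Fin.val h2; omega
    · exact absurd h2 hj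
    · omega
    · omega
    · omega

theorem X_injective : Function.Injective K.X := by
  have hq := K.hq
  have hab := K.dab
  have ha := K.a.isLt
  have hb := K.b.isLt
  rintro (i | (_ | i)) (j | (_ | j)) h
  · have hi := i.isLt
    have hj := j.isLt
    have key : i.val = j.val := by
      rcases K.X_inl i with ⟨h1, h1'⟩ | ⟨h1, h1'⟩ | ⟨h1, h1', h1''⟩ | ⟨h1, h1', h1''⟩ | ⟨h1, h1'⟩ <;>
      rcases K.X_inl j with ⟨h2, h2'⟩ | ⟨h2, h2'⟩ | ⟨h2, h2', h2''⟩ | ⟨h2, h2', h2''⟩ | ⟨h2, h2'⟩ <;>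
      first
        | (exfalso; omega)
        | omega
        | (rw [h1, h2])
    rw [Fin.ext key]
  · exfalso
    rw [X_none] at h
    have hi := i.isLt
    rcases K.X_inl i with ⟨h1, h1'⟩ | ⟨h1, h1'⟩ | ⟨h1, h1', h1''⟩ | ⟨h1, h1', h1''⟩ | ⟨h1, h1'⟩ <;>
    omega
  · exfalso
    rw [X_some] at h
    have hi := i.isLt
    have hj := j.1.isLt
    have hja : j.1.val ≠ K.a.val := fun h => j.2.1 (Fin.ext h)
    have hjb : j.1.val ≠ K.b.val := fun h => j.2.2 (Fin.ext h)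
    rcases K.X_inl i with ⟨h1, h1'⟩ | ⟨h1, h1'⟩ | ⟨h1, h1', h1''⟩ | ⟨h1, h1', h1''⟩ | ⟨h1, h1'⟩ <;>
    omega
  · exfalso
    rw [X_none] at h
    have hj := j.isLt
    rcases K.X_inl j with ⟨h1, h1'⟩ | ⟨h1, h1'⟩ | ⟨h1, h1', h1''⟩ | ⟨h1, h1', h1''⟩ | ⟨h1, h1'⟩ <;>
    omega
  · rfl
  · exfalso
    rw [X_none, X_some] at h
    omega
  · exfalso
    rw [X_some] at h
    have hi := i.1.isLt
    have hj := j.isLt
    have hja : i.1.val ≠ K.a.val := fun h => i.2.1 (Fin.ext h)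
    have hjb : i.1.val ≠ K.b.val := fun h => i.2.2 (Fin.ext h)
    rcases K.X_inl j with ⟨h1, h1'⟩ | ⟨h1, h1'⟩ | ⟨h1, h1', h1''⟩ | ⟨h1, h1', h1''⟩ | ⟨h1, h1'⟩ <;>
    omega
  · exfalso
    rw [X_none, X_some] at h
    omega
  · rw [X_some, X_some] at h
    have : i = j := Subtype.ext (Fin.ext (by omega))
    rw [this]

theorem Y_injective : Function.Injective K.Y := by
  rintro (i | (_ | i)) (j | (_ | j)) h
  · rw [Y_inl, Y_inl] at h
    rw [π.injective (Fin.ext h)]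
  · rw [Y_inl, Y_none] at h
    have := (π i).isLt
    omega
  · rw [Y_inl, Y_some] at h
    have := (π i).isLt
    omega
  · rw [Y_inl, Y_none] at h
    have := (π j).isLt
    omega
  · rfl
  · rw [Y_none, Y_some] at h
    omega
  · rw [Y_inl, Y_some] at h
    have := (π j).isLt
    omega
  · rw [Y_none, Y_some] at h
    omega
  · rw [Y_some, Y_some] at h
    have h1 : i.1 = j.1 := π.injective (Fin.ext (by omega))
    rw [Subtype.ext h1]

end Dat

end Pool.Agent.TH691.US
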