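import Pool.Agent.TH691.US.Avoid3

namespace Pool.Agent.TH691.US

open Equiv Pool.Agent.W6.PS

namespace Dat

variable {n : ℕ} {π : Perm (Fin n)} (K : Dat π)

/-- the marked point -/
def x : K.I := Sum.inl K.q'

/-- the lower companion of the marked point -/
def d : K.I := Sum.inl K.q

/-- the left neighbour of the marked point in the upper block -/
def P : K.I := Sum.inr (some ⟨K.p, K.p_ne⟩)

/-- the clone of `P` -/
def P' : K.I := Sum.inr none

/-- the right neighbour of the marked point in the upper block -/
def R : K.I := Sum.inr (some ⟨K.r, K.r_ne⟩)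

theorem X_x : K.X K.x = n + 10 + 2 * K.a.val := K.X_q'
theorem X_d : K.X K.d = n + 10 + 2 * K.b.val := K.X_q
theorem X_P : K.X K.P = n + 8 + 2 * K.a.val := by
  have := K.hp
  change n + 10 + 2 * K.p.val = _
  omega
theorem X_P' : K.X K.P' = n + 9 + 2 * K.a.val := rfl
theorem X_R : K.X K.R = n + 12 + 2 * K.a.val := by
  have := K.hr
  change n + 10 + 2 * K.r.val = _
  omega
theorem Y_x : K.Y K.x = (π K.q').val := rfl
theorem Y_d : K.Y K.d = (π K.q).val := rfl
theorem Y_P : K.Y K.P = n + 2 * (π K.p).val := rfl
theorem Y_P' : K.Y K.P' = n + 2 * (π K.p).val + 1 := rfl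
theorem Y_R : K.Y K.R = n + 2 * (π K.r).val := rfl

section

variable {ι A B : Type*} [LinearOrder A] [LinearOrder B] {X' : ι → A} {Y' : ι → B} {g : K.I → ι}

/-- a point near the marked column and below `d` creates `π`. -/
theorem low (gX : ∀ i j, K.X i < K.X j → X' (g i) < X' (g j))
    (gY : ∀ i j, K.Y i < K.Y j → Y' (g i) < Y' (g j)) {y : ι}
    (h1 : X' (g K.P) < X' y) (h2 : X' y < X' (g K.R)) (h3 : Y' y < Y' (g K.d)) :
    ∃ f, Occ π X' Y' f := by
  have ha := K.ha
  have hb := K.hb
  have hab := K.dab
  have hp := K.hp
  have hr := K.hr
  have hne : K.b ≠ K.a := by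
    intro h; have := congrArg Fin.val h; omega
  have gX' : ∀ i j, K.X i ≤ K.X j → X' (g i) ≤ X' (g j) := by
    intro i j hij
    rcases eq_or_lt_of_le hij with h | h
    · rw [K.X_injective h]
    · exact (gX _ _ h).le
  have ed : K.d = Sum.inl K.q := rfl
  refine ⟨fun i => if h : i = K.a then y else if h' : i = K.b then g K.d else
      g (Sum.inr (some ⟨i, h, h'⟩)), ?_, ?_⟩
  · intro i j hij
    rw [Fin.lt_def] at hij
    by_cases hia : i = K.a
    · subst hia
      have hja : j ≠ K.a := by rintro rfl; omega
      by_cases hjb : j = K.b
      · subst hjb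
        simp only [dif_pos, dif_neg hja]
        refine h2.trans_le (gX' _ _ ?_)
        rw [K.X_R, K.X_d]
        omega
      · simp only [dif_pos, dif_neg hja, dif_neg hjb]
        refine h2.trans_le (gX' _ _ ?_)
        rw [K.X_R, K.X_some]
        simp only
        omega
    · have hia' : i.val ≠ K.a.val := fun h => hia (Fin.ext h)
      by_cases hib : i = K.b
      · subst hib
        by_cases hja : j = K.a
        · subst hja
          simp only [dif_neg hne, dif_pos]
          refine lt_of_le_of_lt (gX' _ _ ?_) h1
          rw [K.X_P, K.X_d]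
          omega
        · have hjb : j ≠ K.b := by rintro rfl; omega
          simp only [dif_neg hne, dif_pos, dif_neg hja, dif_neg hjb]
          apply gX
          rw [K.X_d, K.X_some]
          simp only
          omega
      · by_cases hja : j = K.a
        · subst hja
          simp only [dif_neg hia, dif_neg hib, dif_pos]
          refine lt_of_le_of_lt (gX' _ _ ?_) h1
          rw [K.X_P, K.X_some]
          simp only
          omega
        · by_cases hjb : j = K.b
          · subst hjb
            simp only [dif_neg hia, dif_neg hib, dif_neg hja, dif_pos]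
            apply gX
            rw [K.X_d, K.X_some]
            simp only
            omega
          · simp only [dif_neg hia, dif_neg hib, dif_neg hja, dif_neg hjb]
            apply gX
            rw [K.X_some, K.X_some]
            simp only
            omega
  · intro i j hij
    rw [Fin.lt_def] at hij
    have hja : j ≠ K.a := by rintro rfl; omega
    have hπq := (π K.q).isLt
    by_cases hia : i = K.a
    · subst hia
      by_cases hjb : j = K.b
      · subst hjb
        simp only [dif_pos, dif_neg hja]
        exact h3
      · simp only [dif_pos, dif_neg hja, dif_neg hjb]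
        refine h3.trans (gY _ _ ?_)
        rw [K.Y_d, K.Y_some]
        omega
    · by_cases hib : i = K.b
      · subst hib
        have hjb : j ≠ K.b := by rintro rfl; omega
        simp only [dif_neg hne, dif_pos, dif_neg hja, dif_neg hjb]
        apply gY
        rw [K.Y_d, K.Y_some]
        omega
      · have hjb : j ≠ K.b := by
          rintro rfl
          have : (π i).val ≠ (π K.a).val := fun h => hia (π.injective (Fin.ext h))
          omega
        simp only [dif_neg hia, dif_neg hib, dif_neg hja, dif_neg hjb]
        apply gY
        rw [K.Y_some, K.Y_some]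
        simp only
        omega

/-- an increasing pair near the marked point creates `π`. -/
theorem pair (gX : ∀ i j, K.X i < K.X j → X' (g i) < X' (g j))
    (gY : ∀ i j, K.Y i < K.Y j → Y' (g i) < Y' (g j)) {y y' : ι}
    (h1 : X' (g K.P) < X' y) (h2 : X' y < X' y') (h3 : X' y' < X' (g K.R) ∨ y' = g K.x)
    (h4 : Y' (g K.d) < Y' y ∨ y = g K.d) (h5 : Y' y < Y' y') (h6 : Y' y' < Y' (g K.x) ∨ y' = g K.x) :
    ∃ f, Occ π X' Y' f := by
  have hq := K.hq
  have hπq := K.hπq
  have hp := K.hp
  have hr := K.hr
  have hne := K.q_ne
  have gX' : ∀ i j, K.X i ≤ K.X j → X' (g i) ≤ X' (g j) := by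
    intro i j hij
    rcases eq_or_lt_of_le hij with h | h
    · rw [K.X_injective h]
    · exact (gX _ _ h).le
  have left : ∀ i : Fin n, i.val < K.q.val → X' (g (Sum.inl i)) < X' y := by
    intro i hi
    refine lt_of_le_of_lt (gX' _ _ ?_) h1
    rw [K.X_P]
    have hin := i.isLt
    rcases K.X_inl i with ⟨h, _⟩ | ⟨h, _⟩ | ⟨h, h', h''⟩ | ⟨h, h', h''⟩ | ⟨h, h'⟩
    · have := congrArg Fin.val h; omega
    · have := congrArg Fin.val h; omega
    · omega
    · omega
    · omega
  have right : ∀ i : Fin n, K.q'.val < i.val → X' y' < X' (g (Sum.inl i)) := by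
    intro i hi
    have hX : K.X (Sum.inl i) = 4 * n + 20 + i.val := by
      rcases K.X_inl i with ⟨h, _⟩ | ⟨h, _⟩ | ⟨h, h', h''⟩ | ⟨h, h', h''⟩ | ⟨h, h'⟩
      · have := congrArg Fin.val h; omega
      · have := congrArg Fin.val h; omega
      · omega
      · omega
      · exact h'
    have ha := K.a.isLt
    rcases h3 with h3 | h3
    · refine h3.trans (gX _ _ ?_)
      rw [K.X_R, hX]
      omega
    · rw [h3]
      apply gX
      rw [K.X_x, hX]
      omega
  have bot : ∀ i : Fin n, (π i).val < (π K.q).val → Y' (g (Sum.inl i)) < Y' y := by
    intro i hi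
    have h0 : Y' (g (Sum.inl i)) < Y' (g K.d) := by
      apply gY
      rw [K.Y_d, K.Y_inl]
      exact hi
    rcases h4 with h4 | h4
    · exact h0.trans h4
    · rw [h4]; exact h0
  have top : ∀ i : Fin n, (π K.q').val < (π i).val → Y' y' < Y' (g (Sum.inl i)) := by
    intro i hi
    have h0 : Y' (g K.x) < Y' (g (Sum.inl i)) := by
      apply gY
      rw [K.Y_x, K.Y_inl]
      exact hi
    rcases h6 with h6 | h6
    · exact h6.trans h0
    · rw [h6]; exact h0
  refine ⟨fun i => if i = K.q then y else if i = K.q' then y' else g (Sum.inl i), ?_, ?_⟩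
  · intro i j hij
    rw [Fin.lt_def] at hij
    by_cases hi : i = K.q
    · subst hi
      have hj : j ≠ K.q := by rintro rfl; omega
      by_cases hj' : j = K.q'
      · subst hj'
        simp only [if_pos, if_neg hj]
        exact h2
      · have : j.val ≠ K.q'.val := fun h => hj' (Fin.ext h)
        simp only [if_pos, if_neg hj, if_neg hj']
        exact h2.trans (right j (by omega))
    · have hi0 : i.val ≠ K.q.val := fun h => hi (Fin.ext h)
      by_cases hi' : i = K.q'
      · subst hi'
        have hj : j ≠ K.q := by rintro rfl; omega
        have hj' : j ≠ K.q' := by rintro rfl; omega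
        simp only [if_neg hi, if_pos, if_neg hj, if_neg hj']
        exact right j hij
      · have hi0' : i.val ≠ K.q'.val := fun h => hi' (Fin.ext h)
        by_cases hj : j = K.q
        · subst hj
          simp only [if_neg hi, if_neg hi', if_pos]
          exact left i hij
        · by_cases hj' : j = K.q'
          · subst hj'
            simp only [if_neg hi, if_neg hi', if_neg hj, if_pos]
            exact (left i (by omega)).trans h2
          · simp only [if_neg hi, if_neg hi', if_neg hj, if_neg hj']
            exact gX _ _ (K.X_mono hij hi hj)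
  · intro i j hij
    rw [Fin.lt_def] at hij
    by_cases hi : i = K.q
    · subst hi
      have hj : j ≠ K.q := by rintro rfl; omega
      by_cases hj' : j = K.q'
      · subst hj'
        simp only [if_pos, if_neg hj]
        exact h5
      · have : (π j).val ≠ (π K.q').val := fun h => hj' (π.injective (Fin.ext h))
        simp only [if_pos, if_neg hj, if_neg hj']
        exact h5.trans (top j (by omega))
    · have hi0 : (π i).val ≠ (π K.q).val := fun h => hi (π.injective (Fin.ext h))
      by_cases hi' : i = K.q'
      · subst hi'
        have hj : j ≠ K.q := by rintro rfl; omega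
        have hj' : j ≠ K.q' := by rintro rfl; omega
        simp only [if_neg hi, if_pos, if_neg hj, if_neg hj']
        exact top j hij
      · have hi0' : (π i).val ≠ (π K.q').val := fun h => hi' (π.injective (Fin.ext h))
        by_cases hj : j = K.q
        · subst hj
          simp only [if_neg hi, if_neg hi', if_pos]
          exact bot i hij
        · by_cases hj' : j = K.q'
          · subst hj'
            simp only [if_neg hi, if_neg hi', if_neg hj, if_pos]
            exact (bot i (by omega)).trans h5
          · simp only [if_neg hi, if_neg hi', if_neg hj, if_neg hj']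
            apply gY
            rw [K.Y_inl, K.Y_inl]
            exact hij

end

end Dat

end Pool.Agent.TH691.US
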