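import Pool.Agent.TH691.US.Amalg
import Pool.Agent.W6.PS.Split

namespace Pool.Agent.TH691.US

open Equiv Pool.Agent.W6.PS Filter Topology

theorem compl_compl' {n : ℕ} (π : Perm (Fin n)) : compl (compl π) = π := by
  ext i
  simp [Pool.Agent.W6.PS.compl]

theorem rc_rc {n : ℕ} (π : Perm (Fin n)) : rc (rc π) = π := by
  ext i
  simp [rc]

theorem isCopy_compl {k m : ℕ} {σ : Perm (Fin k)} {τ : Perm (Fin m)} {f : Fin k → Fin m}
    (h : IsCopy σ τ f) : IsCopy (compl σ) (compl τ) f := by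
  refine ⟨h.1, fun i j => ?_⟩
  rw [compl_lt, compl_lt]
  exact h.2 j i

theorem mem_av_compl {n m : ℕ} {π : Perm (Fin n)} {σ : Perm (Fin m)}
    (h : (⟨m, σ⟩ : Σ m : ℕ, Perm (Fin m)) ∈ Av (compl π)) :
    (⟨m, compl σ⟩ : Σ m : ℕ, Perm (Fin m)) ∈ Av π := by
  rintro ⟨f, hf⟩
  apply h
  refine ⟨f, ?_⟩
  have := isCopy_compl hf
  rwa [compl_compl'] at this

theorem unsplittable_compl {n : ℕ} {π : Perm (Fin n)} (h : Unsplittable (Av π)) :
    Unsplittable (Av (compl π)) := by
  rintro ⟨m1, σ⟩ hσ ⟨m2, ρ⟩ hρ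
  obtain ⟨⟨m, τ⟩, hτ, hc⟩ := h _ (mem_av_compl hσ) _ (mem_av_compl hρ)
  refine ⟨⟨m, compl τ⟩, ?_, ?_⟩
  · apply mem_av_compl
    rw [compl_compl']
    exact hτ
  · intro c
    rcases hc c with ⟨f, hf, hfc⟩ | ⟨f, hf, hfc⟩
    · left
      refine ⟨f, ?_, hfc⟩
      have := isCopy_compl hf
      rwa [compl_compl'] at this
    · right
      refine ⟨f, ?_, hfc⟩
      have := isCopy_compl hf
      rwa [compl_compl'] at this

/-- an increasing adjacency -/
def IncAdj {n : ℕ} (π : Perm (Fin n)) : Prop :=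
  ∃ i j : Fin n, j.val = i.val + 1 ∧ (π j).val = (π i).val + 1

theorem incAdj_rc {n : ℕ} {π : Perm (Fin n)} (h : IncAdj π) : IncAdj (rc π) := by
  obtain ⟨i, j, h1, h2⟩ := h
  refine ⟨j.rev, i.rev, ?_, ?_⟩
  · rw [Fin.val_rev, Fin.val_rev]
    have := j.isLt
    omega
  · rw [rc_apply, rc_apply, Fin.rev_rev, Fin.rev_rev, Fin.val_rev, Fin.val_rev]
    have := (π j).isLt
    omega

theorem exists_dat {n : ℕ} (hn : 20 ≤ n) {π : Perm (Fin n)} (h : IncAdj π) (h1 : ¬ HullBad π)
    (h2 : ¬ LowBad π) : Nonempty (Dat π) := by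
  obtain ⟨q, q', hq, hπq⟩ := h
  unfold LowBad at h2
  push Not at h2
  obtain ⟨l1, l2, l3, l4⟩ := h2
  have e0 : ∀ i : Fin n, i.val = 0 → 3 ≤ (π i).val := fun i hi => l1 i (Or.inl hi)
  have e1 : ∀ i : Fin n, i.val + 1 = n → 3 ≤ (π i).val := fun i hi => l1 i (Or.inr hi)
  obtain ⟨a, ha⟩ : ∃ a : Fin n, (π a).val = 0 := ⟨π.symm ⟨0, by omega⟩, by simp⟩
  obtain ⟨b, hb⟩ : ∃ a : Fin n, (π a).val = 1 := ⟨π.symm ⟨1, by omega⟩, by simp⟩
  obtain ⟨c, hc⟩ : ∃ a : Fin n, (π a).val = 2 := ⟨π.symm ⟨2, by omega⟩, by simp⟩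
  obtain ⟨t, ht⟩ : ∃ a : Fin n, (π a).val + 1 = n :=
    ⟨π.symm ⟨n - 1, by omega⟩, by simp; omega⟩
  have ha0 : a.val ≠ 0 := by
    intro h
    have := e0 a h
    omega
  have ha1 : a.val + 1 ≠ n := by
    intro h
    have := e1 a h
    omega
  have dist : ∀ i j : Fin n, i ≠ j → (π i).val < 3 → (π j).val < 3 →
      i.val + 10 ≤ j.val ∨ j.val + 10 ≤ i.val := by
    intro i j hij hi hj
    by_contra hcon
    have hne : i.val ≠ j.val := fun h => hij (Fin.ext h)
    rcases lt_or_gt_of_ne hne with h | h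
    · have := l2 i j h (by omega) hi; omega
    · have := l2 j i h (by omega) hj; omega
  have haltn := a.isLt
  refine ⟨{ q := q, q' := q', a := a, b := b, c := c, t := t, p := ⟨a.val - 1, by omega⟩,
            r := ⟨a.val + 1, by omega⟩, hq := hq, hπq := hπq, ha := ha, hb := hb, hc := hc,
            ht := ht, hp := by simp only; omega, hr := rfl, q1 := ?_, tq := ?_, hull := h1,
            e0 := e0, e1 := e1, dab := ?_, dbc := ?_, dac := ?_, hn := hn }⟩
  · by_contra hcon
    exact l4 q q' (by omega) (by omega) hπq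
  · intro htq
    exact l3 t q q' (by omega) hq ht hπq
  · exact dist a b (by rintro rfl; omega) (by omega) (by omega)
  · exact dist b c (by rintro rfl; omega) (by omega) (by omega)
  · exact dist a c (by rintro rfl; omega) (by omega) (by omega)

theorem split_inc {n : ℕ} (hn : 20 ≤ n) {π : Perm (Fin n)} (h : IncAdj π) (h1 : ¬ HullBad π)
    (h2 : ¬ LowBad π) (h3 : ¬ HullBad (rc π)) (h4 : ¬ LowBad (rc π)) : ¬ Unsplittable (Av π) := by
  obtain ⟨K⟩ := exists_dat hn h h1 h2
  obtain ⟨K'⟩ := exists_dat hn (incAdj_rc h) h3 h4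
  exact K.not_unsplittable K'

/-- the exceptional permutations -/
def Bad {n : ℕ} (π : Perm (Fin n)) : Prop :=
  ((HullBad π ∨ LowBad π) ∨ (HullBad (rc π) ∨ LowBad (rc π))) ∨
  ((HullBad (compl π) ∨ LowBad (compl π)) ∨ (HullBad (rc (compl π)) ∨ LowBad (rc (compl π))))

theorem split_adj {n : ℕ} (hn : 20 ≤ n) {π : Perm (Fin n)} (h : HasAdj π) (hb : ¬ Bad π) :
    ¬ Unsplittable (Av π) := by
  unfold Bad at hb
  push Not at hb
  obtain ⟨⟨⟨h1, h2⟩, h3, h4⟩, ⟨h5, h6⟩, h7, h8⟩ := hb
  obtain ⟨i, j, hij, h' | h'⟩ := h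
  · exact split_inc hn ⟨i, j, hij, h'⟩ h1 h2 h3 h4
  · intro hU
    refine split_inc hn (π := compl π) ⟨i, j, hij, ?_⟩ h5 h6 h7 h8 (unsplittable_compl hU)
    have e1 := compl_val π i
    have e2 := compl_val π j
    omega

section frac

variable {n : ℕ} {P Q : Perm (Fin n) → Prop}

theorem frac_nonneg : 0 ≤ frac n P := by
  unfold frac
  positivity

theorem frac_mono (h : ∀ π, P π → Q π) : frac n P ≤ frac n Q := by
  classical
  unfold frac
  apply div_le_div_of_nonneg_right _ (by positivity)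
  exact_mod_cast Finset.card_le_card (Finset.monotone_filter_right _ (fun π _ => h π))

theorem frac_or : frac n (fun π => P π ∨ Q π) ≤ frac n P + frac n Q := by
  classical
  unfold frac
  rw [← add_div]
  apply div_le_div_of_nonneg_right _ (by positivity)
  norm_cast
  refine le_trans (Finset.card_le_card ?_) (Finset.card_union_le _ _)
  intro π hπ
  simpa using hπ

theorem frac_comp (f : Perm (Fin n) → Perm (Fin n)) (hf : Function.Injective f) :
    frac n (fun π => P (f π)) ≤ frac n P := by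
  classical
  unfold frac
  apply div_le_div_of_nonneg_right _ (by positivity)
  have : (Finset.univ.filter (fun π => P (f π))).card ≤ (Finset.univ.filter P).card := by
    apply Finset.card_le_card_of_injOn f
    · intro π hπ
      simpa using hπ
    · intro x _ y _ hxy
      exact hf hxy
  exact_mod_cast this

end frac

theorem tendsto_or {P Q : ∀ {n : ℕ}, Perm (Fin n) → Prop}
    (hP : Tendsto (fun n => frac n (fun π => P π)) atTop (𝓝 0))
    (hQ : Tendsto (fun n => frac n (fun π => Q π)) atTop (𝓝 0)) :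
    Tendsto (fun n => frac n (fun π => P π ∨ Q π)) atTop (𝓝 0) := by
  have h := hP.add hQ
  rw [add_zero] at h
  exact squeeze_zero (fun _ => frac_nonneg) (fun _ => frac_or) h

theorem tendsto_comp {P : ∀ {n : ℕ}, Perm (Fin n) → Prop}
    (f : ∀ {n : ℕ}, Perm (Fin n) → Perm (Fin n)) (hf : ∀ n, Function.Injective (f (n := n)))
    (hP : Tendsto (fun n => frac n (fun π => P π)) atTop (𝓝 0)) :
    Tendsto (fun n => frac n (fun π => P (f π))) atTop (𝓝 0) :=
  squeeze_zero (fun _ => frac_nonneg) (fun n => frac_comp f (hf n)) hP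

theorem compl_injective (n : ℕ) : Function.Injective (compl (n := n)) :=
  Function.LeftInverse.injective (g := compl) compl_compl'

theorem rc_injective (n : ℕ) : Function.Injective (rc (n := n)) :=
  Function.LeftInverse.injective (g := rc) rc_rc

theorem tendsto_bad (h1 : Tendsto (fun n => frac n (fun π => HullBad π)) atTop (𝓝 0))
    (h2 : Tendsto (fun n => frac n (fun π => LowBad π)) atTop (𝓝 0)) :
    Tendsto (fun n => frac n (fun π => Bad π)) atTop (𝓝 0) := by
  have h3 : Tendsto (fun n => frac n (fun π : Perm (Fin n) => HullBad π ∨ LowBad π)) atTop (𝓝 0) :=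
    tendsto_or h1 h2
  have h4 : Tendsto (fun n => frac n (fun π : Perm (Fin n) =>
      HullBad (rc π) ∨ LowBad (rc π))) atTop (𝓝 0) :=
    tendsto_comp (P := fun π => HullBad π ∨ LowBad π) rc rc_injective h3
  have h5 : Tendsto (fun n => frac n (fun π : Perm (Fin n) =>
      (HullBad π ∨ LowBad π) ∨ (HullBad (rc π) ∨ LowBad (rc π)))) atTop (𝓝 0) :=
    tendsto_or (P := fun π => HullBad π ∨ LowBad π)
      (Q := fun π => HullBad (rc π) ∨ LowBad (rc π)) h3 h4
  have h6 : Tendsto (fun n => frac n (fun π : Perm (Fin n) =>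
      (HullBad (compl π) ∨ LowBad (compl π)) ∨
        (HullBad (rc (compl π)) ∨ LowBad (rc (compl π))))) atTop (𝓝 0) :=
    tendsto_comp (P := fun π => (HullBad π ∨ LowBad π) ∨ (HullBad (rc π) ∨ LowBad (rc π)))
      compl compl_injective h5
  exact tendsto_or (P := fun π => (HullBad π ∨ LowBad π) ∨ (HullBad (rc π) ∨ LowBad (rc π)))
      (Q := fun π => (HullBad (compl π) ∨ LowBad (compl π)) ∨
        (HullBad (rc (compl π)) ∨ LowBad (rc (compl π)))) h5 h6

theorem p_eq (n : ℕ) : p n = frac n (fun π => Unsplittable (Av π)) := rfl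

/-- the main theorem, from the probabilistic inputs -/
theorem main
    (hs : ∀ {n : ℕ} (π : Perm (Fin n)), (∀ k, 2 ≤ k → k < n → ¬ HasBlock π k) →
      Unsplittable (Av π))
    (hadj : Tendsto (fun n => frac n (fun π => ¬ HasAdj π)) atTop (𝓝 (Real.exp (-2))))
    (hblock : Tendsto (fun n => frac n (fun π => ∃ k, 3 ≤ k ∧ k < n ∧ HasBlock π k)) atTop (𝓝 0))
    (hhull : Tendsto (fun n => frac n (fun π => HullBad π)) atTop (𝓝 0))
    (hlow : Tendsto (fun n => frac n (fun π => LowBad π)) atTop (𝓝 0)) :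
    Tendsto p atTop (𝓝 (Real.exp (-2))) := by
  have hbad := tendsto_bad hhull hlow
  have lower : ∀ n : ℕ, 3 ≤ n → frac n (fun π => ¬ HasAdj π) -
      frac n (fun π => ∃ k, 3 ≤ k ∧ k < n ∧ HasBlock π k) ≤ p n := by
    intro n hn
    rw [sub_le_iff_le_add, p_eq]
    refine le_trans (frac_mono ?_) frac_or
    intro π hπ
    by_cases hb : ∃ k, 3 ≤ k ∧ k < n ∧ HasBlock π k
    · right; exact hb
    · left
      apply hs
      intro k hk2 hkn hbk
      by_cases hk : k = 2
      · subst hk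
        apply hπ
        obtain ⟨s, v, hsn, hsv⟩ := hbk
        have h1 := hsv ⟨s, by omega⟩ (le_refl _) (by simp)
        have h2 := hsv ⟨s + 1, by omega⟩ (by simp) (by simp)
        refine ⟨⟨s, by omega⟩, ⟨s + 1, by omega⟩, rfl, ?_⟩
        have h3 : (π ⟨s, by omega⟩).val ≠ (π ⟨s + 1, by omega⟩).val := by
          intro h
          have := π.injective (Fin.ext h)
          simp at this
        omega
      · exact hb ⟨k, by omega, hkn, hbk⟩
  have upper : ∀ n : ℕ, 20 ≤ n → p n ≤ frac n (fun π => ¬ HasAdj π) +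
      frac n (fun π => Bad π) := by
    intro n hn
    rw [p_eq]
    refine le_trans (frac_mono ?_) frac_or
    intro π hπ
    by_contra hcon
    push Not at hcon
    exact split_adj hn hcon.1 hcon.2 hπ
  have hl := hadj.sub hblock
  have hu := hadj.add hbad
  rw [sub_zero] at hl
  rw [add_zero] at hu
  exact tendsto_of_tendsto_of_tendsto_of_le_of_le' hl hu
    (eventually_atTop.2 ⟨3, lower⟩) (eventually_atTop.2 ⟨20, upper⟩)

end Pool.Agent.TH691.US
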